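import Pool.Agent.helper37.ND.Spec

set_option autoImplicit false

namespace Pool.Agent.ND

open Pool.Agent.helper58.DC Pool.Agent.DI Pool.Agent.GR Pool.Agent.OB Pool.Agent.DR Pool.Agent.FI Pool.Agent.FI3 Pool.Agent.FI4 Pool.Agent.FI4I Pool.Agent.LE Pool.Agent.L5 Pool.Agent.NAB

/-- the `p`-part and the `p`-regular part are powers -/
theorem GSP_dec (p : ℕ) (hp : p.Prime) {G : Type} [Group G] [Finite G] (g : G) :
    ∃ a b : ℕ, g ^ a * g ^ b = g ∧ PEl p (g ^ a) ∧ PReg p (g ^ b) := by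
  have h0 : orderOf g ≠ 0 := (orderOf_pos g).ne'
  obtain ⟨k, n, hn, hN⟩ := Nat.exists_eq_pow_mul_and_not_dvd h0 p hp.ne_one
  have hco : Nat.Coprime (p ^ k) n := Nat.Coprime.pow_left k ((Nat.Prime.coprime_iff_not_dvd hp).2 hn)
  obtain ⟨a, ha1, ha2⟩ := Nat.chineseRemainder hco 1 0
  obtain ⟨b, hb1, hb2⟩ := Nat.chineseRemainder hco 0 1
  refine ⟨a, b, ?_, ?_, ?_⟩
  · rw [← pow_add]
    have h1 : a + b ≡ 1 [MOD orderOf g] := by
      rw [hN]
      refine (Nat.modEq_and_modEq_iff_modEq_mul hco).1 ⟨?_, ?_⟩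
      · exact ha1.add hb1
      · exact ha2.add hb2
    have h2 := (pow_eq_pow_iff_modEq (x := g)).2 h1
    rwa [pow_one] at h2
  · refine ⟨k, ?_⟩
    rw [← pow_mul]
    apply orderOf_dvd_iff_pow_eq_one.1
    rw [hN, mul_comm a]
    exact Nat.mul_dvd_mul_left _ ((Nat.modEq_zero_iff_dvd).1 ha2)
  · intro hdvd
    apply hn
    refine hdvd.trans ?_
    apply orderOf_dvd_iff_pow_eq_one.2
    rw [← pow_mul]
    apply orderOf_dvd_iff_pow_eq_one.1
    rw [hN]
    exact Nat.mul_dvd_mul_right ((Nat.modEq_zero_iff_dvd).1 hb1) _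

theorem GSP (hGVN : GVN_stmt) (hNUD : NUD_stmt) (hZGD : ZGD_stmt) (_hZGP : ZGP_stmt) (hZLM : ZLM_stmt) : GSP_stmt := by
  intro p e m t M hS G _ _ χ Z z x hZD θ hθ ν g hg
  obtain ⟨hIr, _, z', x', hU, hZ⟩ := hθ
  show lam Z t ν g * θ g = θ g
  by_cases h0 : θ g = 0
  · rw [h0, mul_zero]
  · have hgC : g ∈ cz Z := by
      by_contra hcon
      exact h0 (hIr.1 g hcon)
    obtain ⟨a, b, hab, hu, hv⟩ := GSP_dec p hS.pr g
    have huC : g ^ a ∈ cz Z := (cz Z).pow_mem hgC a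
    have hvC : g ^ b ∈ cz Z := (cz Z).pow_mem hgC b
    have hcomm : g ^ a * g ^ b = g ^ b * g ^ a := by rw [← pow_add, ← pow_add, add_comm]
    obtain ⟨D, y, hD, hzD, hzc, hDc⟩ := (hNUD p e m M hS G (cz Z) θ hIr z' x' hU).2
    have hvCz : g ^ b ∈ Cz (cz Z) (g ^ a) := by
      refine ⟨hvC, Subgroup.mem_centralizer_iff.2 ?_⟩
      intro h hh
      rw [Set.mem_singleton_iff] at hh
      rw [hh]
      exact hcomm
    obtain ⟨k, hk, hkD⟩ := hGVN p M hS G (cz Z) θ hIr D y hD (g ^ a) huC hu (g ^ b) hvCz hv (by rw [hab]; exact h0)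
    have h4 := (hZGD p e m hS.pr hZD.em G D hD.pg hDc z' hzD hzc hU.od).2.2.2 (k * g ^ a * k⁻¹) hkD
    rw [hZ] at h4
    have h5 := h4 (by
      intro hle
      apply hg
      intro c hc
      obtain ⟨n, hn⟩ := Subgroup.mem_zpowers_iff.1 (hle hc)
      have h6 : k * c = c * k := (Subgroup.mem_centralizer_iff.1 hk c hc).symm
      have h7 : (k * g ^ a * k⁻¹) ^ n = k * (g ^ a) ^ n * k⁻¹ := by
        rw [conj_zpow]
      have h8 : c = (g ^ a) ^ n := by
        have h9 : k * c * k⁻¹ = k * (g ^ a) ^ n * k⁻¹ := by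
          rw [← h7, hn, h6, mul_assoc, mul_inv_cancel, mul_one]
        exact mul_left_cancel (mul_right_cancel h9)
      rw [h8]
      exact Subgroup.zpow_mem _ (Subgroup.pow_mem _ (Subgroup.mem_zpowers g) a) n)
    have h10 : (g ^ a) ^ p ^ (e - 3) = 1 := by
      rw [conj_pow] at h5
      have h11 : k * (g ^ a) ^ p ^ (e - 3) = k := by
        have h12 := congrArg (fun w => w * k) h5
        simpa using h12
      exact mul_eq_left.1 h11
    have h13 := ((hZLM p e t hS.pr G hZD.tx Z ν).2.2.2.2.1.2 (g ^ a) (g ^ b) hu hv hcomm).2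
    rw [hab, h10] at h13
    have h14 : lam Z t ν g = 1 := by
      unfold lam
      have h15 : g ^ t ∈ Z := by rw [h13]; exact Z.one_mem
      rw [dif_pos h15]
      have h16 : (⟨g ^ t, h15⟩ : Z) = 1 := Subtype.ext h13
      rw [h16, map_one]
      rfl
    rw [h14, one_mul]

end Pool.Agent.ND
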